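import Pool.Agent.Q5.SO.Hyp
import Pool.Agent.Q5.HR.Crit

/-! Integral relations between number fields. -/

set_option autoImplicit false
set_option linter.unusedSectionVars false

namespace Pool.Agent.Q5.SO

open Pool.Agent.W353.NF Pool.Agent.W401.Cheb NumberField
open scoped Classical

section
variable {K : Type} [Field K] [NumberField K]

/-- the fixed embeddings and the fixed cosets -/
theorem fixn_fq (N : IntermediateField K (AlgebraicClosure K)) [FiniteDimensional K N]
    [hN : Normal K N] (B : Subgroup (N ≃ₐ[K] N)) (σ : GK K) :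
    (fixn K (IntermediateField.fixedField B) σ : ℤ) =
      fq B (AlgEquiv.restrictNormal σ N : N ≃ₐ[K] N) := by
  have hgal : IsGalois K N := {}
  have hrange : ∀ i : IntermediateField.fixedField B →ₐ[K] AlgebraicClosure K,
      i.fieldRange ≤ N := by
    rintro i _ ⟨z, rfl⟩
    obtain ⟨f, hf⟩ := HR.exists_extension (N := N) i
    have h2 : f.fieldRange = N := AlgHom.fieldRange_of_normal f
    change i z ∈ N
    have h3 : i z ∈ f.fieldRange := ⟨_, hf z⟩
    exact h2.le h3
  rw [← Pool.Agent.Q5.BR.card_fixed (IntermediateField.fixedField B) N hrange σ]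
  have h1 := HR.card_mul_fix B (AlgEquiv.restrictNormal σ N : N ≃ₐ[K] N)
  have h2 := card_fq B (AlgEquiv.restrictNormal σ N : N ≃ₐ[K] N)
  have h3 : ((Nat.card B : ℕ) : ℤ) ≠ 0 := by
    have : 0 < Nat.card B := Nat.card_pos
    exact_mod_cast this.ne'
  refine mul_left_cancel₀ h3 ?_
  rw [h2, ← Nat.cast_mul, h1]
  rfl

/-- **The relation.** -/
theorem rel_of_cmb (N : IntermediateField K (AlgebraicClosure K)) [FiniteDimensional K N]
    [hN : Normal K N] [Fintype (Subgroup (N ≃ₐ[K] N))] {𝓗 : Subgroup (N ≃ₐ[K] N) → Prop}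
    (h : Cmb 𝓗 (fun _ => 1)) :
    ∃ (ι : Type) (_ : Fintype ι) (B : ι → Subgroup (N ≃ₐ[K] N)) (n : ι → ℤ),
      (∀ j, 𝓗 (B j)) ∧
      ∀ σ : GK K, ∑ j, n j * (fixn K (IntermediateField.fixedField (B j)) σ : ℤ) = 1 := by
  obtain ⟨n, hn, hn'⟩ := h
  refine ⟨{B : Subgroup (N ≃ₐ[K] N) // n B ≠ 0}, inferInstance, fun B => B.1, fun B => n B.1,
    fun B => hn B.1 B.2, fun σ => ?_⟩
  refine Eq.trans ?_ (hn' (AlgEquiv.restrictNormal σ N)).symm
  rw [Finset.sum_congr rfl fun (B : {B : Subgroup (N ≃ₐ[K] N) // n B ≠ 0}) _ =>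
    congrArg (fun t => n B.1 * t) (fixn_fq N B.1 σ)]
  have h2 : ∀ B : Subgroup (N ≃ₐ[K] N), B ∈ Finset.univ.filter (fun B => n B ≠ 0) ↔ n B ≠ 0 := by
    intro B
    simp
  rw [← Finset.sum_subtype (Finset.univ.filter (fun B => n B ≠ 0)) h2
    (fun B => n B * fq B (AlgEquiv.restrictNormal σ N : N ≃ₐ[K] N))]
  rw [Finset.sum_filter_of_ne]
  intro B _ hB h3
  apply hB
  rw [h3, zero_mul]

/-- **Solomon's relation between number fields.** -/
theorem solomon_relation (N : IntermediateField K (AlgebraicClosure K)) [FiniteDimensional K N]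
    [hN : Normal K N] :
    ∃ (ι : Type) (_ : Fintype ι) (B : ι → Subgroup (N ≃ₐ[K] N)) (n : ι → ℤ),
      (∀ j, Hyper (B j)) ∧
      ∀ σ : GK K, ∑ j, n j * (fixn K (IntermediateField.fixedField (B j)) σ : ℤ) = 1 := by
  have : Fintype (Subgroup (N ≃ₐ[K] N)) := Fintype.ofFinite _
  obtain ⟨n, hn, hn'⟩ := solomon (G := N ≃ₐ[K] N)
  exact rel_of_cmb N (𝓗 := fun B => Hyper B) ⟨n, hn, hn'⟩

/-- families that are closed under isomorphisms and composita, with the fixed point condition -/
def Exact (𝓕 : Set (IntermediateField K (AlgebraicClosure K))) : Prop :=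
  (∀ F ∈ 𝓕, FiniteDimensional K F) ∧
  (∀ F ∈ 𝓕, ∀ F' : IntermediateField K (AlgebraicClosure K), Nonempty (F ≃ₐ[K] F') → F' ∈ 𝓕) ∧
  (∀ F ∈ 𝓕, ∀ F' ∈ 𝓕, F ⊔ F' ∈ 𝓕) ∧
  ∀ (σ : GK K) (p : ℕ), p.Prime → ∃ F ∈ 𝓕, ¬ p ∣ fixn K F σ

/-- the number of fixed embeddings is locally constant -/
theorem fixn_mul (F : IntermediateField K (AlgebraicClosure K)) (σ τ : GK K)
    (h : ∀ x ∈ IntermediateField.normalClosure K F (AlgebraicClosure K), τ x = x) :
    fixn K F (σ * τ) = fixn K F σ := by
  have h1 : ∀ (i : F →ₐ[K] AlgebraicClosure K) (z : F), τ (i z) = i z := by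
    intro i z
    apply h
    exact (AlgHom.fieldRange_le_normalClosure i) ⟨z, rfl⟩
  unfold fixn
  refine Nat.card_congr (Equiv.subtypeEquivRight fun i => ?_)
  have h2 : act K F (σ * τ) i = act K F σ i := by
    apply AlgHom.ext
    intro z
    change σ (τ (i z)) = σ (i z)
    rw [h1]
  rw [h2]

/-- **The exact relation in a family.** -/
theorem exact_relation {𝓕 : Set (IntermediateField K (AlgebraicClosure K))} (hF : Exact 𝓕) :
    ∃ (ι : Type) (_ : Fintype ι) (F : ι → IntermediateField K (AlgebraicClosure K)) (n : ι → ℤ),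
      (∀ j, F j ∈ 𝓕) ∧ ∀ σ : GK K, ∑ j, n j * (fixn K (F j) σ : ℤ) = 1 := by
  obtain ⟨hfd, hiso, hsup, hfix⟩ := hF
  -- finitely many fields for each automorphism
  have h1 : ∀ σ : GK K, ∃ T : Finset (IntermediateField K (AlgebraicClosure K)),
      (∀ F ∈ T, F ∈ 𝓕) ∧ ∀ p : ℕ, p.Prime → ∃ F ∈ T, ¬ p ∣ fixn K F σ := by
    intro σ
    obtain ⟨F₀, hF₀, h2⟩ := hfix σ 2 Nat.prime_two
    have hne : fixn K F₀ σ ≠ 0 := fun h => h2 (h ▸ dvd_zero 2)
    choose f hf hf' using fun p : {p : ℕ // p.Prime} => hfix σ p.1 p.2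
    refine ⟨insert F₀ ((fixn K F₀ σ).primeFactors.attach.image fun p =>
      f ⟨p.1, Nat.prime_of_mem_primeFactors p.2⟩), ?_, ?_⟩
    · intro F hF
      rcases Finset.mem_insert.1 hF with rfl | hF
      · exact hF₀
      · obtain ⟨p, -, rfl⟩ := Finset.mem_image.1 hF
        exact hf _
    · intro p hp
      by_cases hd : p ∣ fixn K F₀ σ
      · refine ⟨f ⟨p, hp⟩, Finset.mem_insert_of_mem (Finset.mem_image.2
          ⟨⟨p, Nat.mem_primeFactors.2 ⟨hp, hd, hne⟩⟩, Finset.mem_attach _ _, rfl⟩), hf' ⟨p, hp⟩⟩
      · exact ⟨F₀, Finset.mem_insert_self _ _, hd⟩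
  choose T hT hT' using h1
  -- a normal field for each automorphism
  let M : GK K → IntermediateField K (AlgebraicClosure K) := fun σ =>
    ⨆ F : T σ, IntermediateField.normalClosure K F.1 (AlgebraicClosure K)
  have hMfd : ∀ σ, FiniteDimensional K (M σ) := by
    intro σ
    have : ∀ F : T σ, FiniteDimensional K
        (IntermediateField.normalClosure K F.1 (AlgebraicClosure K)) := fun F => by
      have := hfd F.1 (hT σ F.1 F.2)
      infer_instance
    exact IntermediateField.finiteDimensional_iSup_of_finite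
  have hMn : ∀ σ, Normal K (M σ) := by
    intro σ
    have : ∀ F : T σ, Normal K (IntermediateField.normalClosure K F.1 (AlgebraicClosure K)) :=
      fun F => inferInstance
    exact IntermediateField.normal_iSup K (AlgebraicClosure K) _
  have hTM : ∀ σ, ∀ F ∈ T σ, IntermediateField.normalClosure K F (AlgebraicClosure K) ≤ M σ :=
    fun σ F hF => le_iSup (fun F : T σ =>
      IntermediateField.normalClosure K F.1 (AlgebraicClosure K)) ⟨F, hF⟩
  obtain ⟨t, -, ht⟩ := (isCompact_univ : IsCompact (Set.univ : Set (GK K))).elim_nhds_subcover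
    (fun σ => (fun τ => σ⁻¹ * τ) ⁻¹' ((M σ).fixingSubgroup : Set (GK K))) (fun σ _ => by
      have h2 : IsOpen ((fun τ : GK K => σ⁻¹ * τ) ⁻¹' ((M σ).fixingSubgroup : Set (GK K))) :=
        (M σ).fixingSubgroup_isOpen.preimage (continuous_const.mul continuous_id)
      refine h2.mem_nhds ?_
      change σ⁻¹ * σ ∈ (M σ).fixingSubgroup
      rw [inv_mul_cancel]
      exact one_mem _)
  let N : IntermediateField K (AlgebraicClosure K) := ⨆ σ : t, M σ.1
  have hfdN : FiniteDimensional K N := IntermediateField.finiteDimensional_iSup_of_finite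
  have hnor : Normal K N := IntermediateField.normal_iSup K (AlgebraicClosure K) _
  have hgal : IsGalois K N := {}
  have hMN : ∀ σ ∈ t, M σ ≤ N := fun σ hσ => le_iSup (fun σ : t => M σ.1) ⟨σ, hσ⟩
  have : Fintype (Subgroup (N ≃ₐ[K] N)) := Fintype.ofFinite _
  let 𝓗 : Subgroup (N ≃ₐ[K] N) → Prop := fun B =>
    IntermediateField.lift (IntermediateField.fixedField B) ∈ 𝓕
  have hc : Cmb 𝓗 (fun _ => 1) := by
    refine banaschewski ?_ ?_ ?_
    · intro B a hB
      refine hiso _ hB _ ⟨?_⟩
      let e : IntermediateField.fixedField B ≃ₐ[K]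
          IntermediateField.fixedField (B.map (MulAut.conj a).toMonoidHom) := by
        refine AlgEquiv.ofAlgHom
          (((a : N →ₐ[K] N).comp (IntermediateField.fixedField B).val).codRestrict
            (IntermediateField.fixedField (B.map (MulAut.conj a).toMonoidHom)).toSubalgebra ?_)
          ((((a⁻¹ : N ≃ₐ[K] N) : N →ₐ[K] N).comp (IntermediateField.fixedField
            (B.map (MulAut.conj a).toMonoidHom)).val).codRestrict
            (IntermediateField.fixedField B).toSubalgebra ?_) ?_ ?_
        · intro z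
          refine (IntermediateField.mem_fixedField_iff _ _).2 ?_
          rintro _ ⟨b, hb, rfl⟩
          change (a * b * a⁻¹) (a (z : N)) = a (z : N)
          have h2 : (a * b * a⁻¹) (a (z : N)) = a (b (a⁻¹ (a (z : N)))) := rfl
          have h3 : a⁻¹ (a (z : N)) = z := a.symm_apply_apply _
          rw [h2, h3, (IntermediateField.mem_fixedField_iff B _).1 z.2 b hb]
        · intro z
          refine (IntermediateField.mem_fixedField_iff _ _).2 fun b hb => ?_
          have h2 := (IntermediateField.mem_fixedField_iff _ _).1 z.2 (a * b * a⁻¹) ⟨b, hb, rfl⟩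
          change b (a⁻¹ (z : N)) = a⁻¹ (z : N)
          have h3 : a (b (a⁻¹ (z : N))) = z := h2
          have h4 := congrArg (fun y : N => (a⁻¹ : N ≃ₐ[K] N) y) h3
          have h5 : ∀ y : N, a⁻¹ (a y) = y := fun y => a.symm_apply_apply y
          simp only [h5] at h4
          exact h4
        · apply AlgHom.ext
          intro z
          apply Subtype.ext
          exact a.apply_symm_apply _
        · apply AlgHom.ext
          intro z
          apply Subtype.ext
          exact a.symm_apply_apply _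
      exact ((IntermediateField.liftAlgEquiv (IntermediateField.fixedField B)).symm.trans e).trans
        (IntermediateField.liftAlgEquiv _)
    · intro B C hB hC
      have h2 : IntermediateField.fixedField (B ⊓ C) =
          IntermediateField.fixedField B ⊔ IntermediateField.fixedField C := by
        rw [← IsGalois.fixedField_fixingSubgroup (IntermediateField.fixedField B ⊔
          IntermediateField.fixedField C), IntermediateField.fixingSubgroup_sup,
          IntermediateField.fixingSubgroup_fixedField, IntermediateField.fixingSubgroup_fixedField]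
      change IntermediateField.lift (IntermediateField.fixedField (B ⊓ C)) ∈ 𝓕
      rw [h2]
      have h3 := hsup _ hB _ hC
      change IntermediateField.map _ _ ⊔ IntermediateField.map _ _ ∈ 𝓕 at h3
      rw [← IntermediateField.map_sup] at h3
      exact h3
    · intro g p hp
      obtain ⟨σ, hσ⟩ := AlgEquiv.restrictNormalHom_surjective (AlgebraicClosure K) (K₁ := N) g
      obtain ⟨τ, hτ⟩ := Set.mem_iUnion.1 (ht (Set.mem_univ σ))
      obtain ⟨hτt, hτ'⟩ := Set.mem_iUnion.1 hτ
      obtain ⟨F, hFT, hFp⟩ := hT' τ p hp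
      have h2 : fixn K F σ = fixn K F τ := by
        have h3 : σ = τ * (τ⁻¹ * σ) := by group
        rw [h3]
        refine fixn_mul F τ _ fun x hx => ?_
        exact hτ' ⟨x, hTM τ F hFT hx⟩
      have hFN : F ≤ N := (IntermediateField.le_normalClosure F).trans
        ((hTM τ F hFT).trans (hMN τ hτt))
      have h4 : IntermediateField.fixedField (IntermediateField.restrict hFN).fixingSubgroup =
          IntermediateField.restrict hFN := IsGalois.fixedField_fixingSubgroup _
      refine ⟨(IntermediateField.restrict hFN).fixingSubgroup, ?_, ?_⟩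
      · change IntermediateField.lift (IntermediateField.fixedField
          (IntermediateField.restrict hFN).fixingSubgroup) ∈ 𝓕
        rw [h4, IntermediateField.lift_restrict]
        exact hT τ F hFT
      · have h5 : fq (IntermediateField.restrict hFN).fixingSubgroup g = (fixn K F σ : ℤ) := by
          rw [← hσ]
          refine (fixn_fq N _ σ).symm.trans ?_
          congr 1
          rw [h4, HR.fixn_congr (IntermediateField.liftAlgEquiv
            (IntermediateField.restrict hFN)) σ, IntermediateField.lift_restrict]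
        rw [h5, h2, Int.natCast_dvd_natCast]
        exact hFp
  obtain ⟨ι, hι, B, n, hB, hrel⟩ := rel_of_cmb N hc
  refine ⟨ι, hι, fun j => IntermediateField.lift (IntermediateField.fixedField (B j)), n, hB,
    fun σ => ?_⟩
  rw [← hrel σ]
  refine Finset.sum_congr rfl fun j _ => ?_
  rw [HR.fixn_congr (IntermediateField.liftAlgEquiv (IntermediateField.fixedField (B j))) σ]

end

end Pool.Agent.Q5.SO
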